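import Mathlib
import Pool.Agent.Lib.helper31.ShiftC0

set_option autoImplicit false

namespace Pool.Agent.Results.MP_97ba4e_an.WeakNotNorm

open Filter Topology
open Pool.Agent.H31.ShiftC0 (X mk mk_apply tends abs_le_norm norm_le)

noncomputable def A (k a b : ℝ) : ℝ :=
  max (max (k * b) (2 * a - k * b)) (2 * a) + max (-(k * b)) (-(2 * a) + k * b)

noncomputable def M (k a b t : ℝ) : ℝ := max (2 * A k a b - t) (2 * A k (-a) (-b) + t)

noncomputable def sg (k a b : ℝ) : ℝ := A k a b - A k (-a) (-b)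

lemma A_add (k a b a' b' : ℝ) : A k (a + a') (b + b') ≤ A k a b + A k a' b' := by
  unfold A
  have h1 := le_max_left (k * b) (2 * a - k * b)
  have h2 := le_max_right (k * b) (2 * a - k * b)
  have h3 := le_max_left (max (k * b) (2 * a - k * b)) (2 * a)
  have h4 := le_max_right (max (k * b) (2 * a - k * b)) (2 * a)
  have h5 := le_max_left (-(k * b)) (-(2 * a) + k * b)
  have h6 := le_max_right (-(k * b)) (-(2 * a) + k * b)
  have g1 := le_max_left (k * b') (2 * a' - k * b')
  have g2 := le_max_right (k * b') (2 * a' - k * b')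
  have g3 := le_max_left (max (k * b') (2 * a' - k * b')) (2 * a')
  have g4 := le_max_right (max (k * b') (2 * a' - k * b')) (2 * a')
  have g5 := le_max_left (-(k * b')) (-(2 * a') + k * b')
  have g6 := le_max_right (-(k * b')) (-(2 * a') + k * b')
  have e1 : max (max (k * (b + b')) (2 * (a + a') - k * (b + b'))) (2 * (a + a')) ≤
      max (max (k * b) (2 * a - k * b)) (2 * a) + max (max (k * b') (2 * a' - k * b')) (2 * a') :=
    max_le (max_le (by linarith) (by linarith)) (by linarith)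
  have e2 : max (-(k * (b + b'))) (-(2 * (a + a')) + k * (b + b')) ≤
      max (-(k * b)) (-(2 * a) + k * b) + max (-(k * b')) (-(2 * a') + k * b') :=
    max_le (by linarith) (by linarith)
  linarith

lemma A_smul (k a b : ℝ) {c : ℝ} (hc : 0 ≤ c) : A k (c * a) (c * b) = c * A k a b := by
  unfold A
  rw [mul_add, mul_max_of_nonneg _ _ hc, mul_max_of_nonneg _ _ hc, mul_max_of_nonneg _ _ hc]
  ring_nf

lemma A_zero (k : ℝ) : A k 0 0 = 0 := by simp [A]

lemma A_le {k : ℝ} (hk : 1 ≤ k) (a b : ℝ) : A k a b ≤ 4 * k * (|a| + |b|) := by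
  unfold A
  have h1 := le_abs_self a
  have h2 := neg_abs_le a
  have h3 : k * b ≤ k * |b| := mul_le_mul_of_nonneg_left (le_abs_self b) (by linarith)
  have h4 : -(k * b) ≤ k * |b| := by
    have := mul_le_mul_of_nonneg_left (neg_abs_le b) (by linarith : 0 ≤ k); linarith
  have h5 : |a| ≤ k * |a| := le_mul_of_one_le_left (abs_nonneg _) hk
  have h6 : 0 ≤ k * |b| := by positivity
  have h7 := abs_nonneg a
  have e1 : max (max (k * b) (2 * a - k * b)) (2 * a) ≤ 2 * k * (|a| + |b|) :=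
    max_le (max_le (by linarith) (by linarith)) (by linarith)
  have e2 : max (-(k * b)) (-(2 * a) + k * b) ≤ 2 * k * (|a| + |b|) :=
    max_le (by linarith) (by linarith)
  linarith

lemma M_eq (k a b t : ℝ) : M k a b t = A k a b + A k (-a) (-b) + |t - sg k a b| := by
  unfold M sg
  rcases le_total (t - (A k a b - A k (-a) (-b))) 0 with h | h
  · rw [abs_of_nonpos h, max_eq_left (by linarith)]; ring
  · rw [abs_of_nonneg h, max_eq_right (by linarith)]; ring

lemma M_nonneg (k a b t : ℝ) : 0 ≤ M k a b t := by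
  have := A_add k a b (-a) (-b)
  rw [add_neg_cancel, add_neg_cancel, A_zero] at this
  rw [M_eq]; positivity

lemma M_le {k : ℝ} (hk : 1 ≤ k) (a b t : ℝ) : M k a b t ≤ 8 * k * (|a| + |b|) + |t| := by
  have h1 := A_le hk a b
  have h2 := A_le hk (-a) (-b)
  rw [abs_neg, abs_neg] at h2
  exact max_le (by linarith [neg_abs_le t]) (by linarith [le_abs_self t])

lemma M_add (k a b t a' b' t' : ℝ) :
    M k (a + a') (b + b') (t + t') ≤ M k a b t + M k a' b' t' := by
  unfold M
  have h1 := A_add k a b a' b'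
  have h2 := A_add k (-a) (-b) (-a') (-b')
  rw [← neg_add, ← neg_add] at h2
  have h3 := le_max_left (2 * A k a b - t) (2 * A k (-a) (-b) + t)
  have h4 := le_max_right (2 * A k a b - t) (2 * A k (-a) (-b) + t)
  have h5 := le_max_left (2 * A k a' b' - t') (2 * A k (-a') (-b') + t')
  have h6 := le_max_right (2 * A k a' b' - t') (2 * A k (-a') (-b') + t')
  exact max_le (by linarith) (by linarith)

lemma M_neg (k a b t : ℝ) : M k (-a) (-b) (-t) = M k a b t := by
  unfold M; rw [neg_neg, neg_neg, max_comm]; ring_nf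

lemma M_smul (k a b t c : ℝ) : M k (c * a) (c * b) (c * t) = |c| * M k a b t := by
  have key : ∀ c : ℝ, 0 ≤ c → M k (c * a) (c * b) (c * t) = c * M k a b t := fun c hc => by
    unfold M
    rw [← mul_neg, ← mul_neg, A_smul _ _ _ hc, A_smul _ _ _ hc, mul_max_of_nonneg _ _ hc]
    ring_nf
  rcases le_total 0 c with h | h
  · rw [abs_of_nonneg h, key c h]
  · rw [abs_of_nonpos h, ← key (-c) (by linarith), ← M_neg]; ring_nf

lemma sg_eq (k a b : ℝ) : sg k a b = max (min (k * b) (2 * a - k * b)) 0 -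
    max (min (-(k * b)) (-(2 * a) + k * b)) 0 := by
  unfold sg A
  simp only [mul_neg, neg_neg, max_def, min_def]
  split_ifs <;> linarith

lemma sg_abs (k a b : ℝ) : |sg k a b| ≤ |a| := by
  rw [sg_eq, abs_le]
  have h1 := le_abs_self a
  have h2 := neg_abs_le a
  simp only [max_def, min_def]
  constructor <;> split_ifs <;> linarith

lemma sg_tends (a b : ℝ) : Tendsto (fun n : ℕ => sg (n + 1) a b) atTop (𝓝 0) := by
  refine tendsto_const_nhds.congr' ?_
  rcases eq_or_ne b 0 with rfl | hb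
  · refine Eventually.of_forall fun n => ?_
    simp only [sg_eq, max_def, min_def]
    split_ifs <;> linarith
  · obtain ⟨N, hN⟩ := exists_nat_gt (2 * |a| / |b|)
    rw [div_lt_iff₀ (abs_pos.mpr hb)] at hN
    filter_upwards [eventually_ge_atTop N] with n hn
    have h0 : (N : ℝ) ≤ n := by exact_mod_cast hn
    have h1 : 2 * |a| < ((n : ℝ) + 1) * |b| := by nlinarith [abs_nonneg b]
    have h2 := le_abs_self a
    have h3 := neg_abs_le a
    rcases abs_cases b with ⟨h, h'⟩ | ⟨h, h'⟩ <;> rw [h] at h1 <;>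
      simp only [sg_eq, max_def, min_def] <;> split_ifs <;> linarith

/-- the nonlinear selection -/
noncomputable def σ (a b : ℝ) : X := mk _ (sg_tends a b)

noncomputable def dl (n : ℕ) : ℝ := (1 / 2) ^ n / (n + 1)

lemma dl_pos (n : ℕ) : 0 < dl n := by unfold dl; positivity

lemma summ (a b : ℝ) (x : X) : Summable fun n : ℕ => dl n * M (n + 1) a b (x n) := by
  refine Summable.of_nonneg_of_le (fun n => mul_nonneg (dl_pos n).le (M_nonneg _ _ _ _))
    (fun n => ?_) (summable_geometric_two.mul_right (8 * (|a| + |b|) + ‖x‖))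
  have hn : (1 : ℝ) ≤ n + 1 := by linarith [Nat.cast_nonneg (α := ℝ) n]
  have h1 := M_le hn a b (x n)
  have h2 := abs_le_norm x n
  have h3 : ‖x‖ ≤ (n + 1) * ‖x‖ := le_mul_of_one_le_left (norm_nonneg _) hn
  unfold dl
  rw [div_mul_eq_mul_div, div_le_iff₀ (by positivity), mul_assoc]
  exact mul_le_mul_of_nonneg_left (by linarith) (by positivity)

/-- the space -/
def E : Type := ℝ × ℝ × X

noncomputable instance : AddCommGroup E := inferInstanceAs (AddCommGroup (ℝ × ℝ × X))
noncomputable instance : Module ℝ E := inferInstanceAs (Module ℝ (ℝ × ℝ × X))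

noncomputable def S (v : E) : ℝ := ∑' n : ℕ, dl n * M (n + 1) v.1 v.2.1 (v.2.2 n)

lemma S_nonneg (v : E) : 0 ≤ S v :=
  tsum_nonneg fun n => mul_nonneg (dl_pos n).le (M_nonneg _ _ _ _)

noncomputable def nn (v : E) : ℝ := max (|v.1| + |v.2.1| + S v) ‖v.2.2‖

lemma nn_smul (c : ℝ) (v : E) : nn (c • v) = |c| * nn v := by
  have h : S (c • v) = |c| * S v := by
    unfold S
    rw [← tsum_mul_left]
    refine tsum_congr fun n => ?_
    change dl n * M (n + 1) (c * v.1) (c * v.2.1) (c * v.2.2 n) = _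
    rw [M_smul]; ring
  unfold nn
  rw [h, mul_max_of_nonneg _ _ (abs_nonneg c)]
  change max (|c * v.1| + |c * v.2.1| + _) ‖c • v.2.2‖ = _
  rw [abs_mul, abs_mul, norm_smul, Real.norm_eq_abs]; ring_nf

noncomputable def nrm : AddGroupNorm E where
  toFun := nn
  map_zero' := by have := nn_smul 0 0; simpa using this
  add_le' := fun v w => by
    have h : S (v + w) ≤ S v + S w := by
      unfold S
      rw [← (summ _ _ _).tsum_add (summ _ _ _)]
      refine (summ _ _ _).tsum_le_tsum (fun n => ?_) ((summ _ _ _).add (summ _ _ _))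
      rw [← mul_add]
      exact mul_le_mul_of_nonneg_left (M_add _ _ _ _ _ _ _) (dl_pos n).le
    have h1 : |(v + w).1| ≤ |v.1| + |w.1| := abs_add_le _ _
    have h2 : |(v + w).2.1| ≤ |v.2.1| + |w.2.1| := abs_add_le _ _
    have h3 : ‖(v + w).2.2‖ ≤ ‖v.2.2‖ + ‖w.2.2‖ := norm_add_le _ _
    have h4 := le_max_left (|v.1| + |v.2.1| + S v) ‖v.2.2‖
    have h5 := le_max_right (|v.1| + |v.2.1| + S v) ‖v.2.2‖
    have h6 := le_max_left (|w.1| + |w.2.1| + S w) ‖w.2.2‖
    have h7 := le_max_right (|w.1| + |w.2.1| + S w) ‖w.2.2‖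
    exact max_le (by unfold nn; linarith) (by unfold nn; linarith)
  neg' := fun v => by have := nn_smul (-1) v; simpa using this
  eq_zero_of_map_eq_zero' := fun v hv => by
    have h4 := le_max_left (|v.1| + |v.2.1| + S v) ‖v.2.2‖
    have h5 := le_max_right (|v.1| + |v.2.1| + S v) ‖v.2.2‖
    change nn v = 0 at hv
    unfold nn at hv
    have := S_nonneg v
    have a1 := abs_nonneg v.1
    have a2 := abs_nonneg v.2.1
    refine Prod.ext (abs_eq_zero.mp (by linarith)) (Prod.ext (abs_eq_zero.mp (by linarith))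
      (norm_le_zero_iff.mp (by linarith)))

noncomputable instance : NormedAddCommGroup E := nrm.toNormedAddCommGroup

lemma norm_def (v : E) : ‖v‖ = nn v := rfl

noncomputable instance : NormedSpace ℝ E where
  norm_smul_le := fun c v => (nn_smul c v).le

noncomputable def q (a b : ℝ) : ℝ :=
  |a| + |b| + ∑' n : ℕ, dl n * M (n + 1) a b (σ a b n)

lemma norm_best (a b : ℝ) : nn (a, b, σ a b) = q a b := by
  refine max_eq_left ?_
  have h : ‖σ a b‖ ≤ |a| := norm_le _ (abs_nonneg _) fun n => sg_abs _ _ _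
  have := S_nonneg ((a, b, σ a b) : E)
  have := abs_nonneg b
  change ‖σ a b‖ ≤ |a| + |b| + _
  linarith

lemma M_best (a b t : ℝ) (n : ℕ) : M (n + 1) a b (σ a b n) + |t - σ a b n| = M (n + 1) a b t := by
  rw [M_eq, M_eq]
  change _ + |sg _ a b - _| + |t - sg _ a b| = _
  simp

lemma norm_gt (a b : ℝ) (x : X) (hx : x ≠ σ a b) : q a b < nn (a, b, x) := by
  refine lt_of_lt_of_le ?_ (le_max_left _ _)
  obtain ⟨n, hn⟩ : ∃ n, x n ≠ σ a b n := by
    by_contra hc
    push Not at hc
    exact hx (by ext n; exact hc n)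
  have : ∑' n : ℕ, dl n * M (n + 1) a b (σ a b n) < ∑' n : ℕ, dl n * M (n + 1) a b (x n) := by
    refine Summable.tsum_lt_tsum (i := n) (fun m => ?_) ?_ (summ _ _ _) (summ _ _ _)
    · refine mul_le_mul_of_nonneg_left ?_ (dl_pos m).le
      rw [← M_best a b (x m)]; linarith [abs_nonneg (x m - σ a b m)]
    · refine mul_lt_mul_of_pos_left ?_ (dl_pos n)
      rw [← M_best a b (x n)]; linarith [abs_pos.mpr (sub_ne_zero.mpr hn)]
  unfold q
  change _ < |a| + |b| + ∑' n : ℕ, dl n * M (n + 1) a b (x n)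
  linarith

noncomputable def pr (v : E) : E := ((0, 0, v.2.2 - σ v.1 v.2.1) : ℝ × ℝ × X)

def G : Submodule ℝ E where
  carrier := {v | v.1 = 0 ∧ v.2.1 = 0}
  add_mem' := fun {v w} hv hw => ⟨by change v.1 + w.1 = 0; rw [hv.1, hw.1, add_zero],
    by change v.2.1 + w.2.1 = 0; rw [hv.2, hw.2, add_zero]⟩
  zero_mem' := ⟨rfl, rfl⟩
  smul_mem' := fun c v hv => ⟨by change c * v.1 = 0; rw [hv.1, mul_zero],
    by change c * v.2.1 = 0; rw [hv.2, mul_zero]⟩

lemma strict (v g : E) (hg : g ∈ G) (hne : g ≠ pr v) : ‖v - pr v‖ < ‖v - g‖ := by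
  have e1 : v - pr v = ((v.1, v.2.1, σ v.1 v.2.1) : ℝ × ℝ × X) := by
    refine Prod.ext (sub_zero _) (Prod.ext (sub_zero _) ?_)
    exact sub_sub_cancel _ _
  have e2 : v - g = ((v.1, v.2.1, v.2.2 - g.2.2) : ℝ × ℝ × X) := by
    refine Prod.ext ?_ (Prod.ext ?_ rfl)
    · change v.1 - g.1 = v.1; rw [hg.1, sub_zero]
    · change v.2.1 - g.2.1 = v.2.1; rw [hg.2, sub_zero]
  rw [e1, e2]
  refine (norm_best _ _).trans_lt (norm_gt _ _ _ fun h => hne ?_)
  refine Prod.ext hg.1 (Prod.ext hg.2 ?_)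
  change g.2.2 = v.2.2 - σ v.1 v.2.1
  rw [← h, sub_sub_cancel]

noncomputable def ca : E →L[ℝ] ℝ :=
  LinearMap.mkContinuous (LinearMap.fst ℝ ℝ (ℝ × X)) 1 fun v => by
    have := S_nonneg v
    have := abs_nonneg v.2.1
    have := le_max_left (|v.1| + |v.2.1| + S v) ‖v.2.2‖
    change |v.1| ≤ 1 * max _ _
    linarith

noncomputable def cb : E →L[ℝ] ℝ :=
  LinearMap.mkContinuous ((LinearMap.fst ℝ ℝ X).comp (LinearMap.snd ℝ ℝ (ℝ × X))) 1 fun v => by
    have := S_nonneg v
    have := abs_nonneg v.1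
    have := le_max_left (|v.1| + |v.2.1| + S v) ‖v.2.2‖
    change |v.2.1| ≤ 1 * max _ _
    linarith

noncomputable def cx : E →L[ℝ] X :=
  LinearMap.mkContinuous ((LinearMap.snd ℝ ℝ X).comp (LinearMap.snd ℝ ℝ (ℝ × X))) 1 fun v => by
    have := le_max_right (|v.1| + |v.2.1| + S v) ‖v.2.2‖
    change ‖v.2.2‖ ≤ 1 * max _ _
    linarith

noncomputable def inc : X →L[ℝ] E :=
  LinearMap.mkContinuous ((LinearMap.inr ℝ ℝ (ℝ × X)).comp (LinearMap.inr ℝ ℝ X)) 2 fun x => by
    have h : ∑' n : ℕ, dl n * M (n + 1) 0 0 (x n) ≤ ∑' n : ℕ, (1 / 2 : ℝ) ^ n * ‖x‖ := by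
      refine (summ _ _ _).tsum_le_tsum (fun n => ?_) (summable_geometric_two.mul_right _)
      have hn : (1 : ℝ) ≤ n + 1 := by linarith [Nat.cast_nonneg (α := ℝ) n]
      have h1 := M_le hn 0 0 (x n)
      simp only [abs_zero, add_zero, mul_zero, zero_add] at h1
      exact mul_le_mul (div_le_self (by positivity) hn) (h1.trans (abs_le_norm x n))
        (M_nonneg _ _ _ _) (by positivity)
    rw [tsum_mul_right, tsum_geometric_two] at h
    refine max_le ?_ (by change ‖x‖ ≤ _; linarith [norm_nonneg x])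
    change |(0 : ℝ)| + |(0 : ℝ)| + ∑' n : ℕ, dl n * M (n + 1) 0 0 (x n) ≤ _
    simpa using h

/-- unit vectors -/
def e (n : ℕ) : X := mk (fun i => if i = n then 1 else 0) (by
  refine tendsto_const_nhds.congr' ?_
  filter_upwards [eventually_gt_atTop n] with i hi
  simp [hi.ne'])

lemma sum_e (s : Finset ℕ) (c : ℕ → ℝ) (i : ℕ) :
    (∑ n ∈ s, c n • e n) i = if i ∈ s then c i else 0 := by
  have h3 : (∑ n ∈ s, c n • e n) i = ∑ n ∈ s, c n * e n i := by
    induction s using Finset.induction_on with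
    | empty => simp
    | insert a s ha ih => rw [Finset.sum_insert ha, Finset.sum_insert ha, ← ih]; simp
  rw [h3]
  simp [e]

lemma summ_e (f : X →L[ℝ] ℝ) : Summable fun n => |f (e n)| := by
  refine summable_of_sum_le (c := ‖f‖) (fun n => abs_nonneg _) fun s => ?_
  have h1 : ∑ n ∈ s, |f (e n)| = f (∑ n ∈ s, (SignType.sign (f (e n)) : ℝ) • e n) := by
    rw [map_sum]
    refine Finset.sum_congr rfl fun n _ => ?_
    rw [map_smul, smul_eq_mul, sign_mul_self]
  have h2 : ‖∑ n ∈ s, (SignType.sign (f (e n)) : ℝ) • e n‖ ≤ 1 := by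
    refine norm_le _ zero_le_one fun i => ?_
    rw [sum_e]
    split_ifs
    · rcases SignType.sign (f (e i)) with _ | _ | _ <;> simp
    · simp
  rw [h1]
  exact (le_abs_self _).trans ((f.le_opNorm _).trans (mul_le_of_le_one_right (norm_nonneg _) h2))

lemma hasSum_e (x : X) : HasSum (fun n => x n • e n) x := by
  refine Metric.tendsto_atTop.mpr fun ε hε => ?_
  obtain ⟨N, hN⟩ := Metric.tendsto_atTop.mp (tends x) (ε / 2) (by positivity)
  refine ⟨Finset.range N, fun s hs => ?_⟩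
  rw [dist_eq_norm]
  refine lt_of_le_of_lt (norm_le _ (by positivity : 0 ≤ ε / 2) fun i => ?_) (by linarith)
  simp only [ZeroAtInftyContinuousMap.coe_sub, Pi.sub_apply, sum_e]
  split_ifs with h
  · simp; positivity
  · have := hN i (by
      by_contra hc
      exact h (hs (Finset.mem_range.mpr (not_le.mp hc))))
    rw [Real.dist_eq, sub_zero] at this
    simpa using this.le

lemma σ_weak (f : X →L[ℝ] ℝ) : Continuous fun u : ℝ × ℝ => f (σ u.1 u.2) := by
  have e1 : ∀ u : ℝ × ℝ, f (σ u.1 u.2) = ∑' n : ℕ, sg (n + 1) u.1 u.2 * f (e n) := fun u => by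
    rw [← (f.hasSum (hasSum_e (σ u.1 u.2))).tsum_eq]
    refine tsum_congr fun n => ?_
    rw [map_smul]; rfl
  simp_rw [e1]
  refine continuous_iff_continuousAt.mpr fun u => ?_
  have := continuousOn_tsum (f := fun (n : ℕ) (w : ℝ × ℝ) => sg (n + 1) w.1 w.2 * f (e n))
    (s := Metric.ball 0 (‖u‖ + 1)) (fun n => by unfold sg A; fun_prop)
    ((summ_e f).mul_left (‖u‖ + 1)) fun n w hw => by
      rw [Real.norm_eq_abs, abs_mul]
      refine mul_le_mul_of_nonneg_right ((sg_abs _ _ _).trans ?_) (abs_nonneg _)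
      exact (norm_fst_le w).trans (mem_ball_zero_iff.mp hw).le
  exact this.continuousAt (Metric.isOpen_ball.mem_nhds (by simp))

lemma pr_weak : Continuous fun v : WeakSpace ℝ E =>
    toWeakSpace ℝ E (pr ((toWeakSpace ℝ E).symm v)) := by
  refine WeakBilin.continuous_of_continuous_eval (topDualPairing ℝ E).flip fun f => ?_
  have hf : ∀ g : E →L[ℝ] ℝ, Continuous fun v : WeakSpace ℝ E => g ((toWeakSpace ℝ E).symm v) :=
    fun g => WeakBilin.eval_continuous (topDualPairing ℝ E).flip g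
  have h1 := hf (f.comp (inc.comp cx))
  have h2 := (σ_weak (f.comp inc)).comp ((hf ca).prodMk (hf cb))
  refine (h1.sub h2).congr fun v => ?_
  change f (inc (cx _)) - f (inc (σ _ _)) = f (pr _)
  rw [← map_sub, ← map_sub]
  rfl

lemma pr_not : ¬ Continuous pr := by
  intro h
  have h1 : Tendsto (fun n : ℕ => (show E from ((1, 0, 0) : ℝ × ℝ × X)) + (1 / ((n : ℝ) + 1)) •
      (show E from ((0, 1, 0) : ℝ × ℝ × X)) : ℕ → E) atTop
      (𝓝 ((show E from ((1, 0, 0) : ℝ × ℝ × X)) + (0 : ℝ) • (show E from ((0, 1, 0) : ℝ × ℝ × X)))) :=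
    (tendsto_one_div_add_atTop_nhds_zero_nat.smul_const _).const_add _
  have h2 := ((cx.continuous.comp h).tendsto _).comp h1
  obtain ⟨N, hN⟩ := Metric.tendsto_atTop.mp h2 1 one_pos
  have h3 := hN N le_rfl
  rw [dist_eq_norm] at h3
  have h4 := (abs_le_norm _ N).trans_lt h3
  have hN0 : (N : ℝ) + 1 ≠ 0 := by positivity
  change |((0 + (1 / ((N : ℝ) + 1)) * 0) - sg (N + 1) (1 + (1 / ((N : ℝ) + 1)) * 0)
    (0 + (1 / ((N : ℝ) + 1)) * 1)) - ((0 + 0 * 0) - sg (N + 1) (1 + 0 * 0) (0 + 0 * 1))| < 1 at h4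
  rw [sg_eq, sg_eq] at h4
  simp only [mul_zero, add_zero, mul_one, zero_add, zero_mul, mul_one_div_cancel hN0] at h4
  norm_num at h4

/-- A Chebyshev subspace whose metric projection is weakly continuous but not norm continuous. -/
theorem result : ∃ (E : Type) (_ : NormedAddCommGroup E) (_ : NormedSpace ℝ E)
    (G : Submodule ℝ E) (p : E → E),
    (∀ x, p x ∈ G ∧ (∀ g ∈ G, ‖x - p x‖ ≤ ‖x - g‖) ∧
      ∀ g ∈ G, (∀ g' ∈ G, ‖x - g‖ ≤ ‖x - g'‖) → g = p x) ∧
    Continuous (fun v : WeakSpace ℝ E => toWeakSpace ℝ E (p ((toWeakSpace ℝ E).symm v))) ∧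
    ¬ Continuous p := by
  refine ⟨E, inferInstance, inferInstance, G, pr, fun x => ⟨⟨rfl, rfl⟩, fun g hg => ?_,
    fun g hg h => ?_⟩, pr_weak, pr_not⟩
  · by_cases hne : g = pr x
    · rw [hne]
    · exact (strict x g hg hne).le
  · by_contra hne
    exact absurd (h (pr x) ⟨rfl, rfl⟩) (not_le.mpr (strict x g hg hne))

end Pool.Agent.Results.MP_97ba4e_an.WeakNotNorm
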